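import Pool.Agent.Helper26.Frege.Avg
import Pool.Agent.Helper94.FW.Hats

/-!
The averaging lemma in the form used by the construction of the low degree approximators.
-/

namespace Pool.Agent.Helper26.Frege

open Module Pool.Agent.Helper94.FW

variable {K 𝒞 𝓜 : Type*} [Field K] [CommRing 𝒞] [Algebra K 𝒞] [AddCommGroup 𝓜] [Module K 𝓜]
  [Module 𝒞 𝓜] [IsScalarTower K 𝒞 𝓜]

theorem rk_eq (G : ℕ → Submodule K 𝓜) (h : 𝒞) :
    Pool.Agent.Helper94.FW.rk G h = Pool.Agent.Helper26.Frege.rk (K := K) h (G 0) := by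
  unfold Pool.Agent.Helper94.FW.rk Pool.Agent.Helper26.Frege.rk
  congr 2

theorem nsmul_eq_phi {p : ℕ} [hp : Fact p.Prime] (φ : ZMod p →+* 𝒞) (a : ZMod p) (b : 𝒞) :
    a.val • b = φ a * b := by
  rw [nsmul_eq_mul]
  congr 1
  have h : φ ((a.val : ℕ) : ZMod p) = ((a.val : ℕ) : 𝒞) := map_natCast φ a.val
  rw [← h, ZMod.natCast_zmod_val]

/-- The averaging lemma. -/
theorem avg_holds {p l H w : ℕ} [hp : Fact p.Prime] [CharP 𝒞 p] {G : ℕ → Submodule K 𝓜} {t : 𝒞}
    (ht : Hom G 1 t) (hfin : ∀ j, FiniteDimensional K (G j))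
    (hH : ∀ j, j ≤ w → finrank K (G j) ≤ H) : Avg p l H G t w := by
  intro m D B hDw hB hBB
  have : FiniteDimensional K (G 0) := hfin 0
  have : FiniteDimensional K (G (D * (1 + l * (p - 1)))) := hfin _
  let φ : ZMod p →+* 𝒞 := ZMod.castHom (dvd_refl p) 𝒞
  have hzer : ∀ c : Fin l → Fin m → ZMod p,
      zer φ B (t ^ D) c = tp p t D B (fun u k => (c u k).val) := by
    intro c
    unfold zer tp Pool.Agent.Helper94.FW.tf lin
    refine Finset.prod_congr rfl (fun u _ => ?_)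
    rw [pow_mul]
    congr 2
    refine Finset.sum_congr rfl (fun k _ => ?_)
    rw [nsmul_eq_phi φ]
  have hXY : ∀ c : Fin l → Fin m → ZMod p, ∀ i, ∀ v ∈ G 0,
      (B i * zer φ B (t ^ D) c) • v ∈ G (D * (1 + l * (p - 1))) := by
    intro c i v hv
    rw [hzer]
    have h1 := (hB i).mul (Hom.tp (p := p) ht hB (fun u k => (c u k).val))
    have h2 := h1 0 v hv
    have e : 0 + (D + D * (l * (p - 1))) = D * (1 + l * (p - 1)) := by ring
    rw [e] at h2
    exact h2
  obtain ⟨c, hc⟩ := exists_coeff (κ := Fin l) φ B (t ^ D) hBB (G 0)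
    (G (D * (1 + l * (p - 1)))) hXY
  refine ⟨fun u k => (c u k).val, ?_⟩
  rw [Fintype.card_fin, Fintype.card_fin] at hc
  refine le_trans (le_of_eq ?_) (hc.trans (Nat.mul_le_mul_left _ (hH _ hDw)))
  congr 1
  refine Finset.sum_congr rfl (fun i _ => ?_)
  rw [rk_eq, hzer, ← pow_mul, mul_assoc]

end Pool.Agent.Helper26.Frege
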