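import Mathlib

/-!
Averaging lemma inside a graded module (rank version, no injectivity of `t`), used for the
AC0[p]-Frege lower bound.
-/

namespace Pool.Agent.Helper26.Frege

open Module

section Rank

variable {K C M : Type*} [Field K] [CommRing C] [Algebra K C] [AddCommGroup M] [Module K M]
  [Module C M] [IsScalarTower K C M]

/-- Multiplication by `h`, as a `K`-linear map. -/
def mulL (K : Type*) {C M : Type*} [Field K] [CommRing C] [Algebra K C] [AddCommGroup M]
    [Module K M] [Module C M] [IsScalarTower K C M] (h : C) : M →ₗ[K] M where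
  toFun v := h • v
  map_add' := smul_add h
  map_smul' a v := by
    rw [RingHom.id_apply, ← algebraMap_smul C a v, ← algebraMap_smul C a (h • v), smul_smul,
      smul_smul, mul_comm]

@[simp] theorem mulL_apply (h : C) (v : M) : mulL K h v = h • v := rfl

/-- The rank of `h` on the subspace `X`. -/
noncomputable def rk (h : C) (X : Submodule K M) : ℕ := finrank K (X.map (mulL K h))

/-- Orthogonal quasi-idempotents: the ranks, measured one step higher, add up to at most the
dimension of the space in the middle. -/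
theorem sum_rk_le {ι : Type*} [Fintype ι] (T : ι → C) (τ : C) (h1 : ∀ j, T j * T j = τ * T j)
    (h2 : ∀ j k, j ≠ k → T j * T k = 0) (X Y : Submodule K M) [FiniteDimensional K X]
    [FiniteDimensional K Y] (hXY : ∀ j, ∀ v ∈ X, T j • v ∈ Y) :
    ∑ j, rk (τ * T j) X ≤ finrank K Y := by
  classical
  -- sections
  have hsec : ∀ j, ∃ s : (X.map (mulL K (τ * T j)) : Submodule K M) →ₗ[K] X,
      ∀ y, (τ * T j) • ((s y : X) : M) = (y : M) := by
    intro j
    let f : X →ₗ[K] (X.map (mulL K (τ * T j)) : Submodule K M) :=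
      (mulL K (τ * T j)).submoduleMap X
    have hf : Function.Surjective f := LinearMap.submoduleMap_surjective _ _
    obtain ⟨s, hs⟩ := f.exists_rightInverse_of_surjective (LinearMap.range_eq_top.2 hf)
    refine ⟨s, fun y => ?_⟩
    have h3 : f (s y) = y := by
      have := LinearMap.congr_fun hs y
      simpa using this
    have h4 : ((f (s y) : (X.map (mulL K (τ * T j)) : Submodule K M)) : M) =
        (τ * T j) • ((s y : X) : M) := rfl
    rw [← h4, h3]
  choose s hs using hsec
  let Φ : (∀ j, (X.map (mulL K (τ * T j)) : Submodule K M)) →ₗ[K] M :=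
    ∑ j, (mulL K (T j)) ∘ₗ X.subtype ∘ₗ (s j) ∘ₗ LinearMap.proj j
  have hΦ : ∀ y, Φ y = ∑ j, T j • ((s j (y j) : X) : M) := by
    intro y
    simp [Φ]
  have hmem : ∀ y, Φ y ∈ Y := by
    intro y
    rw [hΦ]
    exact Submodule.sum_mem _ (fun j _ => hXY j _ (s j (y j)).2)
  let Ψ := Φ.codRestrict Y hmem
  have hinj : Function.Injective Ψ := by
    rw [← LinearMap.ker_eq_bot, LinearMap.ker_eq_bot']
    intro y hy
    have hy' : Φ y = 0 := congrArg Subtype.val hy
    funext j
    have h3 : T j • Φ y = (y j : M) := by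
      rw [hΦ, Finset.smul_sum, Finset.sum_eq_single j]
      · rw [smul_smul, h1, hs]
      · intro k _ hk
        rw [smul_smul, h2 j k (Ne.symm hk), zero_smul]
      · intro h; exact absurd (Finset.mem_univ _) h
    apply Subtype.ext
    rw [← h3, hy', smul_zero]
    rfl
  have := LinearMap.finrank_le_finrank_of_injective hinj
  rw [finrank_pi_fintype] at this
  exact this

/-- If the ranks of the `h k` on `X` sum up to less than the rank of `g`, some vector is killed
by all `h k` but not by `g`. -/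
theorem exists_alive {κ : Type*} [Fintype κ] (h : κ → C) (g : C) (X : Submodule K M)
    [FiniteDimensional K X] (hlt : ∑ k, rk (h k) X < rk g X) :
    ∃ P ∈ X, (∀ k, h k • P = 0) ∧ g • P ≠ 0 := by
  classical
  by_contra hcon
  push Not at hcon
  let Φ : X →ₗ[K] (∀ k, (X.map (mulL K (h k)) : Submodule K M)) :=
    LinearMap.pi (fun k => (mulL K (h k)).submoduleMap X)
  let f : X →ₗ[K] (X.map (mulL K g) : Submodule K M) := (mulL K g).submoduleMap X
  have hker : LinearMap.ker Φ ≤ LinearMap.ker f := by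
    intro P hP
    rw [LinearMap.mem_ker] at hP ⊢
    apply Subtype.ext
    refine hcon P P.2 (fun k => ?_)
    exact congrArg Subtype.val (congrFun hP k)
  have h1 := LinearMap.finrank_range_add_finrank_ker Φ
  have h2 := LinearMap.finrank_range_add_finrank_ker f
  have h3 : finrank K (LinearMap.range f) = rk g X := by
    rw [LinearMap.range_eq_top.2 (LinearMap.submoduleMap_surjective _ _), finrank_top]
    rfl
  have h4 : finrank K (LinearMap.range Φ) ≤ ∑ k, rk (h k) X := by
    refine (Submodule.finrank_le _).trans ?_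
    rw [finrank_pi_fintype]
    rfl
  have h5 := Submodule.finrank_mono hker
  omega

end Rank

section Ring

variable {p : ℕ} [hp : Fact p.Prime] {C : Type*} [CommRing C] (φ : ZMod p →+* C)

theorem cast_p (φ : ZMod p →+* C) : (p : C) = 0 := by
  have h : φ ((p : ℕ) : ZMod p) = ((p : ℕ) : C) := map_natCast φ p
  rw [← h, ZMod.natCast_self, map_zero]

theorem add_pow_p (φ : ZMod p →+* C) (x y : C) : (x + y) ^ p = x ^ p + y ^ p := by
  rcases subsingleton_or_nontrivial C with h | h
  · exact Subsingleton.elim _ _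
  · have : CharP C p := charP_of_injective_ringHom φ.injective p
    exact add_pow_char x y p

theorem sum_pow_p (φ : ZMod p →+* C) {ι : Type*} (s : Finset ι) (f : ι → C) :
    (∑ i ∈ s, f i) ^ p = ∑ i ∈ s, f i ^ p := by
  classical
  induction s using Finset.induction_on with
  | empty => simp [zero_pow hp.out.ne_zero]
  | insert a s ha ih => rw [Finset.sum_insert ha, Finset.sum_insert ha, add_pow_p φ, ih]

theorem phi_pow (a : ZMod p) : φ a ^ p = φ a := by
  rw [← map_pow, ZMod.pow_card]

/-- The quasi-projector on the eigenvalue `-a`. -/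
def prj (τ y : C) (a : ZMod p) : C := τ ^ (p - 1) - (y + φ a * τ) ^ (p - 1)

theorem mul_prj {τ y : C} (hy : y ^ p = τ ^ (p - 1) * y) (a : ZMod p) :
    (y + φ a * τ) * prj φ τ y a = 0 := by
  have hp1 : p - 1 + 1 = p := Nat.sub_add_cancel hp.out.one_le
  unfold prj
  have e1 : (y + φ a * τ) * (y + φ a * τ) ^ (p - 1) = y ^ p + φ a * τ ^ p := by
    rw [← pow_succ', hp1, add_pow_p φ, mul_pow, phi_pow]
  have e2 : τ ^ p = τ ^ (p - 1) * τ := by rw [← pow_succ, hp1]
  rw [mul_sub, e1, hy, e2]
  ring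

theorem prj_mul_self {τ y : C} (hy : y ^ p = τ ^ (p - 1) * y) (a : ZMod p) :
    prj φ τ y a * prj φ τ y a = τ ^ (p - 1) * prj φ τ y a := by
  have hp1 : p - 1 = (p - 2) + 1 := by have := hp.out.two_le; omega
  have h := mul_prj φ hy a
  have h2 : (y + φ a * τ) ^ (p - 1) * prj φ τ y a = 0 := by
    rw [hp1, pow_succ, mul_assoc, h, mul_zero]
  have e : prj φ τ y a * prj φ τ y a =
      τ ^ (p - 1) * prj φ τ y a - (y + φ a * τ) ^ (p - 1) * prj φ τ y a := by
    conv_lhs => rw [show prj φ τ y a * prj φ τ y a =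
      (τ ^ (p - 1) - (y + φ a * τ) ^ (p - 1)) * prj φ τ y a from rfl]
    ring
  rw [e, h2, sub_zero]

theorem prj_mul_prj {τ y : C} (hy : y ^ p = τ ^ (p - 1) * y) {a b : ZMod p} (hab : a ≠ b) :
    prj φ τ y a * prj φ τ y b = 0 := by
  have h := mul_prj φ hy a
  -- `P_a (z + s)^k = P_a s^k`
  have key : ∀ (s : C) (k : ℕ), prj φ τ y a * ((y + φ a * τ) + s) ^ k = prj φ τ y a * s ^ k := by
    intro s k
    induction k with
    | zero => simp
    | succ k ih =>
      rw [pow_succ, ← mul_assoc, ih, pow_succ]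
      have : prj φ τ y a * s ^ k * ((y + φ a * τ) + s) =
          s ^ k * ((y + φ a * τ) * prj φ τ y a) + prj φ τ y a * (s ^ k * s) := by ring
      rw [this, h, mul_zero, zero_add]
  have e1 : y + φ b * τ = (y + φ a * τ) + φ (b - a) * τ := by
    rw [map_sub]; ring
  have e2 : φ (b - a) ^ (p - 1) = 1 := by
    rw [← map_pow, ZMod.pow_card_sub_one_eq_one (sub_ne_zero.2 (Ne.symm hab)), map_one]
  have e3 : prj φ τ y b = τ ^ (p - 1) - (y + φ b * τ) ^ (p - 1) := rfl
  rw [e3, mul_sub, e1, key, mul_pow, e2, one_mul, sub_self]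

/-- The quasi-projectors sum up to `τ ^ (p - 1)`. -/
theorem sum_prj (τ y : C) : ∑ a : ZMod p, prj φ τ y a = τ ^ (p - 1) := by
  classical
  have hp1 : p - 1 < p := Nat.sub_lt hp.out.pos Nat.one_pos
  unfold prj
  rw [Finset.sum_sub_distrib, Finset.sum_const, Finset.card_univ, ZMod.card, nsmul_eq_mul,
    cast_p φ, zero_mul, zero_sub]
  have e : ∀ a : ZMod p, (y + φ a * τ) ^ (p - 1) = ∑ k ∈ Finset.range (p - 1 + 1),
      (y ^ k * τ ^ (p - 1 - k) * ((p - 1).choose k : C)) * φ (a ^ (p - 1 - k)) := by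
    intro a
    rw [add_pow]
    refine Finset.sum_congr rfl (fun k _ => ?_)
    rw [mul_pow, map_pow]; ring
  simp only [e]
  rw [Finset.sum_comm]
  rw [Finset.sum_eq_single_of_mem 0 (Finset.mem_range.2 (Nat.succ_pos _))]
  · rw [← Finset.mul_sum, ← map_sum]
    have h0 : ∑ a : ZMod p, a ^ (p - 1 - 0) = -1 := by
      have := FiniteField.sum_pow_units (K := ZMod p) (p - 1)
      rw [if_pos (by rw [ZMod.card])] at this
      rw [Nat.sub_zero]
      have h5 : ∑ a : ZMod p, a ^ (p - 1) = ∑ a ∈ Finset.univ.filter (fun a : ZMod p => a ≠ 0), 1 := by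
        rw [Finset.sum_filter]
        refine Finset.sum_congr rfl (fun a _ => ?_)
        by_cases ha : a = 0
        · subst ha
          rw [if_neg (by simp), zero_pow]
          have := hp.out.two_le; omega
        · rw [if_pos ha, ZMod.pow_card_sub_one_eq_one ha]
      rw [h5, Finset.sum_const, Finset.filter_ne', Finset.card_erase_of_mem (Finset.mem_univ _),
        Finset.card_univ, ZMod.card, nsmul_eq_mul, mul_one, Nat.cast_sub hp.out.one_le]
      simp
    rw [h0]
    simp
  · intro k hk hk0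
    rw [← Finset.mul_sum, ← map_sum]
    have h0 : ∑ a : ZMod p, a ^ (p - 1 - k) = 0 := by
      apply FiniteField.sum_pow_lt_card_sub_one
      rw [ZMod.card]
      have := hp.out.two_le
      omega
    rw [h0, map_zero, mul_zero]

theorem mul_pow_congr {b x y : C} (h : b * x = b * y) (k : ℕ) : b * x ^ k = b * y ^ k := by
  induction k with
  | zero => simp
  | succ k ih =>
    calc b * x ^ (k + 1) = (b * x ^ k) * x := by ring
      _ = (b * y ^ k) * x := by rw [ih]
      _ = y ^ k * (b * x) := by ring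
      _ = y ^ k * (b * y) := by rw [h]
      _ = b * y ^ (k + 1) := by ring

theorem mul_prod_congr {ι : Type*} (s : Finset ι) {b : C} {f g : ι → C}
    (h : ∀ i ∈ s, b * f i = b * g i) : b * ∏ i ∈ s, f i = b * ∏ i ∈ s, g i := by
  classical
  induction s using Finset.induction_on with
  | empty => simp
  | insert a s ha ih =>
    rw [Finset.prod_insert ha, Finset.prod_insert ha]
    have h1 := h a (Finset.mem_insert_self _ _)
    have h2 := ih (fun i hi => h i (Finset.mem_insert_of_mem hi))
    calc b * (f a * ∏ i ∈ s, f i) = f a * (b * ∏ i ∈ s, f i) := by ring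
      _ = f a * (b * ∏ i ∈ s, g i) := by rw [h2]
      _ = (b * f a) * ∏ i ∈ s, g i := by ring
      _ = (b * g a) * ∏ i ∈ s, g i := by rw [h1]
      _ = b * (g a * ∏ i ∈ s, g i) := by ring

/-- The linear combination of the `B k` with coefficients `c k`. -/
def lin {ι : Type*} [Fintype ι] (B : ι → C) (c : ι → ZMod p) : C := ∑ k, φ (c k) * B k

theorem lin_pow {ι : Type*} [Fintype ι] {B : ι → C} {τ : C} (hB : ∀ i, B i * B i = τ * B i)
    (c : ι → ZMod p) : lin φ B c ^ p = τ ^ (p - 1) * lin φ B c := by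
  have hBp : ∀ i, ∀ k, B i ^ (k + 1) = τ ^ k * B i := by
    intro i k
    induction k with
    | zero => simp
    | succ k ih => rw [pow_succ, ih, mul_assoc, hB]; ring
  unfold lin
  rw [sum_pow_p φ, Finset.mul_sum]
  refine Finset.sum_congr rfl (fun k _ => ?_)
  have hp1 : p - 1 + 1 = p := Nat.sub_add_cancel hp.out.one_le
  have := hBp k (p - 1)
  rw [hp1] at this
  rw [mul_pow, phi_pow, this]
  ring

theorem lin_add_single {ι : Type*} [Fintype ι] [DecidableEq ι] (B : ι → C) (c : ι → ZMod p)
    (i : ι) (a : ZMod p) : lin φ B (c + Pi.single i a) = lin φ B c + φ a * B i := by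
  unfold lin
  simp only [Pi.add_apply, map_add, add_mul, Finset.sum_add_distrib]
  congr 1
  rw [Finset.sum_eq_single i]
  · rw [Pi.single_eq_same]
  · intro k _ hk
    rw [Pi.single_eq_of_ne hk, map_zero, zero_mul]
  · intro h; exact absurd (Finset.mem_univ _) h

/-- The part of the approximator on which all random sums vanish. -/
def zer {ι κ : Type*} [Fintype ι] [Fintype κ] (B : ι → C) (τ : C) (c : κ → ι → ZMod p) : C :=
  ∏ u, (τ ^ (p - 1) - lin φ B (c u) ^ (p - 1))

end Ring



section Avg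

variable {p : ℕ} [hp : Fact p.Prime] {C : Type*} [CommRing C] (φ : ZMod p →+* C)

/-- The shifted element, in terms of quasi-projectors. -/
theorem shift_eq {ι κ : Type*} [Fintype ι] [DecidableEq ι] [Fintype κ]
    (B : ι → C) (τ : C) (hB : ∀ i, B i * B i = τ * B i) (i : ι)
    (c : κ → ι → ZMod p) (j : κ → ZMod p) :
    B i * zer φ B τ (fun u => c u + Pi.single i (j u)) =
      B i * ∏ u, prj φ τ (lin φ B (c u)) (j u) := by
  unfold zer
  apply mul_prod_congr
  intro u _
  unfold prj
  rw [lin_add_single, mul_sub, mul_sub]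
  congr 1
  apply mul_pow_congr
  rw [mul_add, mul_add]
  congr 1
  calc B i * (φ (j u) * B i) = φ (j u) * (B i * B i) := by ring
    _ = φ (j u) * (τ * B i) := by rw [hB]
    _ = B i * (φ (j u) * τ) := by ring

theorem shift_sq {ι κ : Type*} [Fintype ι] [Fintype κ]
    (B : ι → C) (τ : C) (hB : ∀ i, B i * B i = τ * B i) (i : ι)
    (c : κ → ι → ZMod p) (j : κ → ZMod p) :
    (B i * ∏ u, prj φ τ (lin φ B (c u)) (j u)) * (B i * ∏ u, prj φ τ (lin φ B (c u)) (j u)) =
      τ ^ (1 + Fintype.card κ * (p - 1)) * (B i * ∏ u, prj φ τ (lin φ B (c u)) (j u)) := by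
  have hy : ∀ u, lin φ B (c u) ^ p = τ ^ (p - 1) * lin φ B (c u) := fun u => lin_pow φ hB _
  have e1 : (∏ u, prj φ τ (lin φ B (c u)) (j u)) * (∏ u, prj φ τ (lin φ B (c u)) (j u)) =
      τ ^ (Fintype.card κ * (p - 1)) * ∏ u, prj φ τ (lin φ B (c u)) (j u) := by
    rw [← Finset.prod_mul_distrib]
    have : ∀ u ∈ Finset.univ, prj φ τ (lin φ B (c u)) (j u) * prj φ τ (lin φ B (c u)) (j u) =
        τ ^ (p - 1) * prj φ τ (lin φ B (c u)) (j u) := fun u _ => prj_mul_self φ (hy u) _
    rw [Finset.prod_congr rfl this, Finset.prod_mul_distrib, Finset.prod_const,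
      Finset.card_univ, ← pow_mul, mul_comm (p - 1)]
  generalize (∏ u, prj φ τ (lin φ B (c u)) (j u)) = P at e1 ⊢
  calc B i * P * (B i * P) = (B i * B i) * (P * P) := by ring
    _ = (τ * B i) * (τ ^ (Fintype.card κ * (p - 1)) * P) := by rw [hB, e1]
    _ = τ ^ (1 + Fintype.card κ * (p - 1)) * (B i * P) := by rw [pow_add, pow_one]; ring

theorem shift_orth {ι κ : Type*} [Fintype ι] [Fintype κ]
    (B : ι → C) (τ : C) (hB : ∀ i, B i * B i = τ * B i) (i : ι)
    (c : κ → ι → ZMod p) (j k : κ → ZMod p) (hjk : j ≠ k) :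
    (B i * ∏ u, prj φ τ (lin φ B (c u)) (j u)) *
      (B i * ∏ u, prj φ τ (lin φ B (c u)) (k u)) = 0 := by
  have hy : ∀ u, lin φ B (c u) ^ p = τ ^ (p - 1) * lin φ B (c u) := fun u => lin_pow φ hB _
  obtain ⟨u, hu⟩ := Function.ne_iff.1 hjk
  have e1 : (∏ u, prj φ τ (lin φ B (c u)) (j u)) * (∏ u, prj φ τ (lin φ B (c u)) (k u)) = 0 := by
    rw [← Finset.prod_mul_distrib]
    exact Finset.prod_eq_zero (Finset.mem_univ u) (prj_mul_prj φ (hy u) hu)
  generalize (∏ u, prj φ τ (lin φ B (c u)) (j u)) = P at e1 ⊢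
  generalize (∏ u, prj φ τ (lin φ B (c u)) (k u)) = Q at e1 ⊢
  calc B i * P * (B i * Q) = (B i * B i) * (P * Q) := by ring
    _ = 0 := by rw [e1, mul_zero]

variable {K M : Type*} [Field K] [Algebra K C]
  [AddCommGroup M] [Module K M] [Module C M] [IsScalarTower K C M]

/-- For a fixed disjunct, the average over the shifts of the coefficients. -/
theorem sum_shift_le {ι κ : Type*} [Fintype ι] [DecidableEq ι] [Fintype κ] [DecidableEq κ]
    (B : ι → C) (τ : C)
    (hB : ∀ i, B i * B i = τ * B i) (X Y : Submodule K M) [FiniteDimensional K X]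
    [FiniteDimensional K Y] (i : ι)
    (hXY : ∀ c : κ → ι → ZMod p, ∀ v ∈ X, (B i * zer φ B τ c) • v ∈ Y)
    (c : κ → ι → ZMod p) :
    ∑ j : κ → ZMod p, rk (τ ^ (1 + Fintype.card κ * (p - 1)) *
      (B i * zer φ B τ (fun u => c u + Pi.single i (j u)))) X ≤ finrank K Y := by
  have h := sum_rk_le (fun j : κ → ZMod p => B i * ∏ u, prj φ τ (lin φ B (c u)) (j u))
    (τ ^ (1 + Fintype.card κ * (p - 1))) (fun j => shift_sq φ B τ hB i c j)
    (fun j k hjk => shift_orth φ B τ hB i c j k hjk) X Y (fun j v hv => by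
      have := hXY (fun u => c u + Pi.single i (j u)) v hv
      rw [shift_eq φ B τ hB i c j] at this
      exact this)
  refine le_of_eq_of_le ?_ h
  refine Finset.sum_congr rfl (fun j _ => ?_)
  rw [shift_eq φ B τ hB i c j]

/-- **Averaging lemma**: a choice of coefficients for which the errors of all disjuncts have
small total rank. -/
theorem exists_coeff {ι κ : Type*} [Fintype ι] [Fintype κ] (B : ι → C) (τ : C)
    (hB : ∀ i, B i * B i = τ * B i) (X Y : Submodule K M) [FiniteDimensional K X]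
    [FiniteDimensional K Y]
    (hXY : ∀ c : κ → ι → ZMod p, ∀ i, ∀ v ∈ X, (B i * zer φ B τ c) • v ∈ Y) :
    ∃ c : κ → ι → ZMod p, p ^ Fintype.card κ *
      ∑ i, rk (τ ^ (1 + Fintype.card κ * (p - 1)) * (B i * zer φ B τ c)) X ≤
      Fintype.card ι * finrank K Y := by
  classical
  obtain ⟨R, hR⟩ : ∃ R : ι → (κ → ι → ZMod p) → ℕ, ∀ i c, R i c =
    rk (τ ^ (1 + Fintype.card κ * (p - 1)) * (B i * zer φ B τ c)) X := ⟨_, fun _ _ => rfl⟩
  have h0 : ∀ (i : ι) (c : κ → ι → ZMod p), ∑ j : κ → ZMod p, R i (fun u => c u + Pi.single i (j u)) ≤ finrank K Y := by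
    intro i c
    have := sum_shift_le φ B τ hB X Y i (fun c => hXY c i) c
    simp only [hR]
    exact this
  suffices hs : ∃ c : κ → ι → ZMod p, p ^ Fintype.card κ * ∑ i, R i c ≤
      Fintype.card ι * finrank K Y by
    obtain ⟨c, hc⟩ := hs
    refine ⟨c, ?_⟩
    simp only [hR] at hc
    exact hc
  clear hR hXY
  generalize finrank K Y = H at h0 ⊢
  have h1 : ∀ i, p ^ Fintype.card κ * ∑ c : κ → ι → ZMod p, R i c ≤
      Fintype.card (κ → ι → ZMod p) * H := by
    intro i
    have e1 : ∑ c : κ → ι → ZMod p, ∑ j : κ → ZMod p, R i (fun u => c u + Pi.single i (j u)) =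
        p ^ Fintype.card κ * ∑ c : κ → ι → ZMod p, R i c := by
      rw [Finset.sum_comm]
      have : ∀ j : κ → ZMod p, ∑ c : κ → ι → ZMod p, R i (fun u => c u + Pi.single i (j u)) =
          ∑ c : κ → ι → ZMod p, R i c := by
        intro j
        exact Fintype.sum_equiv (Equiv.addRight (fun u => Pi.single i (j u))) _ _ (fun c => rfl)
      rw [Finset.sum_congr rfl (fun j _ => this j), Finset.sum_const, Finset.card_univ,
        Fintype.card_fun, ZMod.card, smul_eq_mul]
    rw [← e1]
    calc ∑ c : κ → ι → ZMod p, ∑ j : κ → ZMod p, R i (fun u => c u + Pi.single i (j u))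
        ≤ ∑ _c : κ → ι → ZMod p, H := Finset.sum_le_sum (fun c _ => h0 i c)
      _ = Fintype.card (κ → ι → ZMod p) * H := by
          rw [Finset.sum_const, Finset.card_univ, smul_eq_mul]
  have h2 : ∑ c : κ → ι → ZMod p, p ^ Fintype.card κ * ∑ i, R i c ≤
      ∑ _c : κ → ι → ZMod p, Fintype.card ι * H := by
    calc ∑ c : κ → ι → ZMod p, p ^ Fintype.card κ * ∑ i, R i c
        = ∑ i, p ^ Fintype.card κ * ∑ c : κ → ι → ZMod p, R i c := by
          rw [← Finset.mul_sum, Finset.sum_comm, ← Finset.mul_sum]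
      _ ≤ ∑ _i : ι, Fintype.card (κ → ι → ZMod p) * H :=
          Finset.sum_le_sum (fun i _ => h1 i)
      _ = ∑ _c : κ → ι → ZMod p, Fintype.card ι * H := by
          rw [Finset.sum_const, Finset.sum_const, Finset.card_univ, Finset.card_univ,
            smul_eq_mul, smul_eq_mul]
          ring
  obtain ⟨c, _, hc⟩ := Finset.exists_le_of_sum_le Finset.univ_nonempty h2
  exact ⟨c, hc⟩

end Avg

end Pool.Agent.Helper26.Frege
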